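import Pool.Agent.R893.TP.Count

/-!
# Connected sets which contain a vertex of large degree are mostly stars
-/

set_option autoImplicit false
set_option linter.unusedSectionVars false

namespace Pool.Agent.R893.TP

open SimpleGraph Finset

variable {V : Type*} [Fintype V] [DecidableEq V] {G : SimpleGraph V} [DecidableRel G.Adj]

open Classical in
/-- Connected sets, not stars, in which `u` has maximal degree. -/
noncomputable def nsu (G : SimpleGraph V) [DecidableRel G.Adj] (K : ℕ) (u : V) :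
    Finset (Finset V) :=
  (conn G (K + 1) \ stars G (K + 1)).filter fun U => u ∈ U ∧ ∀ x ∈ U, G.degree x ≤ G.degree u

theorem mem_nsu {K : ℕ} {u : V} {U : Finset V} : U ∈ nsu G K u ↔
    (U ∈ conn G (K + 1) ∧ U ∉ stars G (K + 1)) ∧ u ∈ U ∧ ∀ x ∈ U, G.degree x ≤ G.degree u := by
  simp [nsu]

theorem card_nsu (K : ℕ) (u : V) : (nsu G K u).card ≤ ((K + 1) * G.degree u) ^ K := by
  have h1 : nsu G K u ⊆ sup G (G.degree u) {u} K := by
    intro U hU
    rw [mem_nsu, mem_conn] at hU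
    rw [mem_sup]
    refine ⟨by simpa using hU.2.1, ?_, hU.1.1.2, hU.2.2⟩
    rw [hU.1.1.1, Finset.card_singleton, add_comm]
  refine (Finset.card_le_card h1).trans ((card_sup _ K {u} (Finset.singleton_nonempty u)).trans ?_)
  rw [Finset.card_singleton, add_comm]

/-- The weight of the neighbourhood. -/
noncomputable def M (G : SimpleGraph V) [DecidableRel G.Adj] (u : V) : ℕ :=
  ∑ v ∈ (G.neighborFinset u).filter (fun v => G.degree v ≤ G.degree u), G.degree v

theorem card_nsu' {K : ℕ} (hK : 2 ≤ K) (u : V) :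
    (nsu G K u).card ≤ M G u * ((K + 1) * G.degree u) ^ (K - 2) := by
  classical
  let N := (G.neighborFinset u).filter (fun v => G.degree v ≤ G.degree u)
  have h1 : nsu G K u ⊆ N.biUnion fun v => ((G.neighborFinset v).erase u).biUnion fun w =>
      sup G (G.degree u) {u, v, w} (K - 2) := by
    intro U hU
    rw [mem_nsu, mem_conn, mem_stars] at hU
    obtain ⟨⟨⟨hc, hconn⟩, hns⟩, hu, hdeg⟩ := hU
    let A := U.filter fun x => x = u ∨ G.Adj u x
    have hAU : A ⊆ U := Finset.filter_subset _ _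
    have huA : u ∈ A := Finset.mem_filter.2 ⟨hu, Or.inl rfl⟩
    have hne : A ≠ U := by
      intro h
      apply hns
      refine ⟨hc, u, hu, fun v hv hvu => ?_⟩
      rw [← h] at hv
      exact (Finset.mem_filter.1 hv).2.resolve_left hvu
    obtain ⟨v, hv, w, hw, hwA, hadj⟩ := exists_edge hconn ⟨u, huA⟩ hAU hne
    have hvu : v ≠ u := by
      rintro rfl
      exact hwA (Finset.mem_filter.2 ⟨hw, Or.inr hadj⟩)
    have huv : G.Adj u v := (Finset.mem_filter.1 hv).2.resolve_left hvu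
    have hvU : v ∈ U := hAU hv
    have hwu : w ≠ u := by
      rintro rfl
      exact hwA huA
    rw [Finset.mem_biUnion]
    refine ⟨v, Finset.mem_filter.2 ⟨(G.mem_neighborFinset _ _).2 huv, hdeg v hvU⟩, ?_⟩
    rw [Finset.mem_biUnion]
    refine ⟨w, Finset.mem_erase.2 ⟨hwu, (G.mem_neighborFinset _ _).2 hadj⟩, ?_⟩
    rw [mem_sup]
    have hcard : ({u, v, w} : Finset V).card = 3 := by
      rw [Finset.card_eq_three]
      exact ⟨u, v, w, hvu.symm, hwu.symm, hadj.ne, rfl⟩
    refine ⟨?_, by rw [hcard, hc]; omega, hconn, hdeg⟩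
    intro x hx
    simp only [Finset.mem_insert, Finset.mem_singleton] at hx
    rcases hx with rfl | rfl | rfl
    · exact hu
    · exact hvU
    · exact hw
  refine (Finset.card_le_card h1).trans (Finset.card_biUnion_le.trans ?_)
  rw [M, Finset.sum_mul]
  refine Finset.sum_le_sum fun v hv => ?_
  refine Finset.card_biUnion_le.trans ?_
  refine (Finset.sum_le_card_nsmul _ _ (((K + 1) * G.degree u) ^ (K - 2)) fun w hw => ?_).trans ?_
  · have huv : G.Adj u v := (G.mem_neighborFinset _ _).1 (Finset.mem_filter.1 hv).1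
    have hwu := (Finset.mem_erase.1 hw).1
    have hvw : G.Adj v w := (G.mem_neighborFinset _ _).1 (Finset.mem_erase.1 hw).2
    have hcard : ({u, v, w} : Finset V).card = 3 := by
      rw [Finset.card_eq_three]
      exact ⟨u, v, w, huv.ne, hwu.symm, hvw.ne, rfl⟩
    refine (card_sup _ _ _ (Finset.insert_nonempty _ _)).trans ?_
    rw [hcard, show 3 + (K - 2) = K + 1 by omega]
  · rw [smul_eq_mul]
    apply Nat.mul_le_mul_right
    refine (Finset.card_erase_le).trans ?_
    rw [G.card_neighborFinset_eq_degree]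

open Classical in
/-- Neighbours of comparable degree. -/
noncomputable def good (G : SimpleGraph V) [DecidableRel G.Adj] (δ : ℝ) (u : V) : Finset V :=
  (G.neighborFinset u).filter fun v => G.degree v ≤ G.degree u ∧ δ * G.degree u ≤ G.degree v

theorem mem_good {δ : ℝ} {u v : V} : v ∈ good G δ u ↔
    G.Adj u v ∧ G.degree v ≤ G.degree u ∧ δ * G.degree u ≤ G.degree v := by
  simp [good]

theorem card_good {δ : ℝ} (hδ : 0 < δ) {u : V}
    (h : 2 * δ * (G.degree u : ℝ) ^ 2 < (M G u : ℝ)) :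
    δ * (G.degree u : ℝ) < ((good G δ u).card : ℝ) := by
  classical
  set D : ℝ := (G.degree u : ℝ) with hD
  have hD0 : 0 ≤ D := Nat.cast_nonneg _
  set F := (G.neighborFinset u).filter (fun v => G.degree v ≤ G.degree u) with hF
  have h1 : (M G u : ℝ) ≤ ((good G δ u).card : ℝ) * D + δ * D ^ 2 := by
    have e1 : (M G u : ℝ) = ∑ v ∈ F, (G.degree v : ℝ) := by
      rw [M]
      push_cast
      rfl
    have e2 : ∀ v ∈ F, (G.degree v : ℝ) ≤ (if v ∈ good G δ u then D else 0) + δ * D := by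
      intro v hv
      rw [hF, Finset.mem_filter, G.mem_neighborFinset] at hv
      by_cases hc : δ * D ≤ (G.degree v : ℝ)
      · rw [if_pos (mem_good.2 ⟨hv.1, hv.2, hc⟩)]
        have : (G.degree v : ℝ) ≤ D := by
          rw [hD]
          exact_mod_cast hv.2
        nlinarith
      · have h2 : ¬ v ∈ good G δ u := fun h => hc (mem_good.1 h).2.2
        rw [if_neg h2, zero_add]
        exact (not_le.1 hc).le
    rw [e1]
    refine (Finset.sum_le_sum e2).trans ?_
    rw [Finset.sum_add_distrib, ← Finset.sum_filter, Finset.sum_const, Finset.sum_const,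
      nsmul_eq_mul, nsmul_eq_mul]
    have e3 : ((F.filter (fun v => v ∈ good G δ u)).card : ℝ) ≤ ((good G δ u).card : ℝ) := by
      exact_mod_cast Finset.card_le_card fun v hv => (Finset.mem_filter.1 hv).2
    have e4 : (F.card : ℝ) ≤ D := by
      rw [hD, ← G.card_neighborFinset_eq_degree]
      exact_mod_cast Finset.card_filter_le _ _
    have e5 := mul_le_mul_of_nonneg_right e3 hD0
    have e6 := mul_le_mul_of_nonneg_right e4 (mul_nonneg hδ.le hD0)
    have e7 : D * (δ * D) = δ * D ^ 2 := by ring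
    linarith
  have h2 : δ * D ^ 2 < ((good G δ u).card : ℝ) * D := by linarith
  by_contra hcon
  push Not at hcon
  have h3 := mul_le_mul_of_nonneg_right hcon hD0
  have : δ * D * D = δ * D ^ 2 := by ring
  linarith

/-- The constant `2 ^ K K!`. -/
noncomputable def cc (K : ℕ) : ℝ := 2 ^ K * K.factorial

theorem cc_pos (K : ℕ) : 0 < cc K := by
  unfold cc
  positivity

theorem pow_le_choose {K d : ℕ} (h : 2 * (K + 1) ≤ d) :
    (d : ℝ) ^ K ≤ cc K * (d.choose K : ℝ) := by
  have h1 := Nat.pow_le_choose K d (α := ℝ)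
  have hfac : (0 : ℝ) < K.factorial := by exact_mod_cast K.factorial_pos
  rw [div_le_iff₀ hfac] at h1
  have h2 : (d : ℝ) / 2 ≤ ((d + 1 - K : ℕ) : ℝ) := by
    have h3 : d ≤ 2 * (d + 1 - K) := by omega
    have h4 : (d : ℝ) ≤ 2 * ((d + 1 - K : ℕ) : ℝ) := by exact_mod_cast h3
    linarith
  have h3 : ((d : ℝ) / 2) ^ K ≤ ((d + 1 - K : ℕ) : ℝ) ^ K :=
    pow_le_pow_left₀ (by positivity) h2 K
  have h4 : ((d : ℝ) / 2) ^ K ≤ (d.choose K : ℝ) * K.factorial := by
    refine h3.trans ?_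
    exact_mod_cast h1
  rw [div_pow, div_le_iff₀ (by positivity)] at h4
  calc (d : ℝ) ^ K ≤ _ := h4
    _ = cc K * (d.choose K : ℝ) := by rw [cc]; ring

theorem sum_le_stars (hG : G.IsTree) {K : ℕ} (hK : 3 ≤ K) (S : Finset V)
    (hS : ∀ v ∈ S, 2 * (K + 1) ≤ G.degree v) :
    ∑ v ∈ S, (G.degree v : ℝ) ^ K ≤ cc K * (stars G (K + 1)).card := by
  calc ∑ v ∈ S, (G.degree v : ℝ) ^ K ≤ ∑ v ∈ S, cc K * ((G.degree v).choose K : ℝ) :=
        Finset.sum_le_sum fun v hv => pow_le_choose (hS v hv)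
    _ ≤ ∑ v, cc K * ((G.degree v).choose K : ℝ) :=
        Finset.sum_le_sum_of_subset_of_nonneg (Finset.subset_univ _) fun v _ _ =>
          mul_nonneg (cc_pos K).le (Nat.cast_nonneg _)
    _ = cc K * ((∑ v, (G.degree v).choose K : ℕ) : ℝ) := by
        rw [← Finset.mul_sum]
        push_cast
        rfl
    _ ≤ _ := mul_le_mul_of_nonneg_left (by exact_mod_cast sum_choose_le hG hK) (cc_pos K).le

open Classical in
/-- The vertices of large degree with a rich neighbourhood. -/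
noncomputable def rich (G : SimpleGraph V) [DecidableRel G.Adj] (δ : ℝ) (D₀ : ℕ) : Finset V :=
  univ.filter fun u => D₀ ≤ G.degree u ∧ 2 * δ * (G.degree u : ℝ) ^ 2 < (M G u : ℝ)

theorem sum_rich (hG : G.IsTree) {K : ℕ} (hK : 3 ≤ K) {δ : ℝ} (hδ : 0 < δ) (hδ1 : δ ≤ 1)
    {D₀ : ℕ} (hD₀ : 2 * ((K : ℝ) + 1) ≤ δ * D₀) :
    ∑ u ∈ rich G δ D₀, (G.degree u : ℝ) ^ K ≤
      2 / (δ ^ (K + 1) * D₀) * (cc K * (stars G (K + 1)).card) := by
  classical
  obtain ⟨r⟩ := hG.connected.nonempty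
  have hD₀pos : (0 : ℝ) < D₀ := by
    by_contra h
    have h1 : (D₀ : ℝ) = 0 := le_antisymm (not_lt.1 h) (Nat.cast_nonneg _)
    rw [h1, mul_zero] at hD₀
    have : (0 : ℝ) ≤ K := Nat.cast_nonneg _
    linarith
  let gc : V → Finset V := fun u => (good G δ u).filter fun v => child G r u v
  have hgc : ∀ u ∈ rich G δ D₀, δ * D₀ / 2 ≤ ((gc u).card : ℝ) := by
    intro u hu
    obtain ⟨-, hdeg, hM⟩ := Finset.mem_filter.1 hu
    have h1 := card_good hδ hM
    have h2 : (good G δ u).card ≤ (gc u).card + 1 := by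
      have h3 : (good G δ u) ⊆ gc u ∪ (good G δ u).filter fun v => child G r v u := by
        intro v hv
        rw [Finset.mem_union, Finset.mem_filter, Finset.mem_filter]
        rcases child_or hG r (mem_good.1 hv).1 with h | h
        · exact Or.inl ⟨hv, h⟩
        · exact Or.inr ⟨hv, h⟩
      refine (Finset.card_le_card h3).trans ((Finset.card_union_le _ _).trans ?_)
      apply Nat.add_le_add_left
      refine Finset.card_le_one.2 fun a ha b hb => ?_
      exact parent_unique hG (Finset.mem_filter.1 ha).2 (Finset.mem_filter.1 hb).2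
    have h3 : ((good G δ u).card : ℝ) ≤ ((gc u).card : ℝ) + 1 := by exact_mod_cast h2
    have h4 : δ * D₀ ≤ δ * (G.degree u : ℝ) :=
      mul_le_mul_of_nonneg_left (by exact_mod_cast hdeg) hδ.le
    have : (3 : ℝ) ≤ K := by exact_mod_cast hK
    linarith
  have hterm : ∀ u ∈ rich G δ D₀, (G.degree u : ℝ) ^ K * (δ ^ (K + 1) * D₀ / 2) ≤
      ∑ v ∈ gc u, (G.degree v : ℝ) ^ K := by
    intro u hu
    have h1 : ∀ v ∈ gc u, δ ^ K * (G.degree u : ℝ) ^ K ≤ (G.degree v : ℝ) ^ K := by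
      intro v hv
      rw [← mul_pow]
      apply pow_le_pow_left₀ (mul_nonneg hδ.le (Nat.cast_nonneg _))
      exact (mem_good.1 (Finset.mem_filter.1 hv).1).2.2
    have h2 := Finset.card_nsmul_le_sum (gc u) _ _ h1
    rw [nsmul_eq_mul] at h2
    refine le_trans ?_ h2
    have h3 := mul_le_mul_of_nonneg_right (hgc u hu)
      (show 0 ≤ δ ^ K * (G.degree u : ℝ) ^ K by positivity)
    refine le_trans (le_of_eq ?_) h3
    ring
  have hdisj : ∑ u ∈ rich G δ D₀, ∑ v ∈ gc u, (G.degree v : ℝ) ^ K ≤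
      cc K * (stars G (K + 1)).card := by
    rw [← Finset.sum_biUnion]
    · refine sum_le_stars hG hK _ fun v hv => ?_
      rw [Finset.mem_biUnion] at hv
      obtain ⟨u, hu, hv⟩ := hv
      have h1 := (mem_good.1 (Finset.mem_filter.1 hv).1).2.2
      have h2 : δ * D₀ ≤ δ * (G.degree u : ℝ) :=
        mul_le_mul_of_nonneg_left (by exact_mod_cast (Finset.mem_filter.1 hu).2.1) hδ.le
      have h3 : (2 * ((K : ℝ) + 1)) ≤ (G.degree v : ℝ) := by linarith
      exact_mod_cast h3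
    · intro u _ u' _ hne
      rw [Function.onFun, Finset.disjoint_left]
      intro v hv hv'
      exact hne (parent_unique hG (Finset.mem_filter.1 hv).2 (Finset.mem_filter.1 hv').2)
  have h1 : (∑ u ∈ rich G δ D₀, (G.degree u : ℝ) ^ K) * (δ ^ (K + 1) * D₀ / 2) ≤
      cc K * (stars G (K + 1)).card := by
    rw [Finset.sum_mul]
    exact (Finset.sum_le_sum hterm).trans hdisj
  have hpos : (0 : ℝ) < δ ^ (K + 1) * D₀ := by positivity
  rw [div_mul_eq_mul_div, le_div_iff₀ hpos]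
  linarith

open Classical in
/-- Connected sets, not stars, with a vertex of degree at least `D₀`. -/
noncomputable def nsBig (G : SimpleGraph V) [DecidableRel G.Adj] (K D₀ : ℕ) :
    Finset (Finset V) :=
  (conn G (K + 1) \ stars G (K + 1)).filter fun U => ∃ x ∈ U, D₀ ≤ G.degree x

theorem card_nsBig (hG : G.IsTree) {K : ℕ} (hK : 3 ≤ K) {δ : ℝ} (hδ : 0 < δ) (hδ1 : δ ≤ 1)
    {D₀ : ℕ} (hD₀ : 2 * ((K : ℝ) + 1) ≤ δ * D₀) :
    ((nsBig G K D₀).card : ℝ) ≤ (2 * δ * ((K : ℝ) + 1) ^ K * cc K +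
      ((K : ℝ) + 1) ^ K * (2 / (δ ^ (K + 1) * D₀) * cc K)) * (stars G (K + 1)).card := by
  classical
  have hD₀' : 2 * (K + 1) ≤ D₀ := by
    have h1 : δ * D₀ ≤ 1 * D₀ := mul_le_mul_of_nonneg_right hδ1 (Nat.cast_nonneg _)
    have h2 : (2 * ((K : ℝ) + 1)) ≤ D₀ := by linarith
    exact_mod_cast h2
  let B : Finset V := univ.filter fun u => D₀ ≤ G.degree u
  have h1 : nsBig G K D₀ ⊆ B.biUnion fun u => nsu G K u := by
    intro U hU
    obtain ⟨hU1, x, hx, hdx⟩ := Finset.mem_filter.1 hU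
    obtain ⟨u, hu, hmax⟩ := Finset.exists_max_image U (fun x => G.degree x) ⟨x, hx⟩
    rw [Finset.mem_biUnion]
    refine ⟨u, Finset.mem_filter.2 ⟨Finset.mem_univ _, hdx.trans (hmax x hx)⟩, ?_⟩
    rw [mem_nsu]
    exact ⟨Finset.mem_sdiff.1 hU1, hu, hmax⟩
  have h2 : ((nsBig G K D₀).card : ℝ) ≤ ∑ u ∈ B, ((nsu G K u).card : ℝ) := by
    have := (Finset.card_le_card h1).trans Finset.card_biUnion_le
    exact_mod_cast this
  have hsplit : ∀ u ∈ B, ((nsu G K u).card : ℝ) ≤
      2 * δ * ((K : ℝ) + 1) ^ K * (G.degree u : ℝ) ^ K +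
        (if u ∈ rich G δ D₀ then ((K : ℝ) + 1) ^ K * (G.degree u : ℝ) ^ K else 0) := by
    intro u hu
    have hdu := (Finset.mem_filter.1 hu).2
    by_cases hr : u ∈ rich G δ D₀
    · rw [if_pos hr]
      have h3 : ((nsu G K u).card : ℝ) ≤ ((K : ℝ) + 1) ^ K * (G.degree u : ℝ) ^ K := by
        have := card_nsu (G := G) K u
        rw [← mul_pow]
        exact_mod_cast this
      have h4 : 0 ≤ 2 * δ * ((K : ℝ) + 1) ^ K * (G.degree u : ℝ) ^ K := by positivity
      linarith
    · rw [if_neg hr, add_zero]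
      have hM : (M G u : ℝ) ≤ 2 * δ * (G.degree u : ℝ) ^ 2 := by
        by_contra hcon
        exact hr (Finset.mem_filter.2 ⟨Finset.mem_univ _, hdu, not_le.1 hcon⟩)
      have h3 : ((nsu G K u).card : ℝ) ≤
          (M G u : ℝ) * (((K : ℝ) + 1) * (G.degree u : ℝ)) ^ (K - 2) := by
        have := card_nsu' (G := G) (show 2 ≤ K by omega) u
        exact_mod_cast this
      have h4 : (M G u : ℝ) * (((K : ℝ) + 1) * (G.degree u : ℝ)) ^ (K - 2) ≤
          2 * δ * (G.degree u : ℝ) ^ 2 * (((K : ℝ) + 1) * (G.degree u : ℝ)) ^ (K - 2) :=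
        mul_le_mul_of_nonneg_right hM (by positivity)
      have h5 : 2 * δ * (G.degree u : ℝ) ^ 2 * (((K : ℝ) + 1) * (G.degree u : ℝ)) ^ (K - 2) =
          2 * δ * ((K : ℝ) + 1) ^ (K - 2) * (G.degree u : ℝ) ^ K := by
        have e1 : (G.degree u : ℝ) ^ K = (G.degree u : ℝ) ^ 2 * (G.degree u : ℝ) ^ (K - 2) := by
          rw [← pow_add]
          congr 1
          omega
        rw [e1, mul_pow]
        ring
      have h6 : ((K : ℝ) + 1) ^ (K - 2) ≤ ((K : ℝ) + 1) ^ K :=
        pow_le_pow_right₀ (by linarith [(Nat.cast_nonneg K : (0 : ℝ) ≤ K)]) (by omega)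
      have h7 : 2 * δ * ((K : ℝ) + 1) ^ (K - 2) * (G.degree u : ℝ) ^ K ≤
          2 * δ * ((K : ℝ) + 1) ^ K * (G.degree u : ℝ) ^ K := by
        apply mul_le_mul_of_nonneg_right _ (by positivity)
        exact mul_le_mul_of_nonneg_left h6 (by positivity)
      linarith
  have h3 := h2.trans (Finset.sum_le_sum hsplit)
  rw [Finset.sum_add_distrib, ← Finset.mul_sum, ← Finset.sum_filter, ← Finset.mul_sum] at h3
  have h4 : ∑ u ∈ B, (G.degree u : ℝ) ^ K ≤ cc K * (stars G (K + 1)).card :=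
    sum_le_stars hG hK B fun v hv => hD₀'.trans (Finset.mem_filter.1 hv).2
  have h5 : ∑ u ∈ B.filter (fun u => u ∈ rich G δ D₀), (G.degree u : ℝ) ^ K ≤
      2 / (δ ^ (K + 1) * D₀) * (cc K * (stars G (K + 1)).card) := by
    refine le_trans ?_ (sum_rich hG hK hδ hδ1 hD₀)
    exact Finset.sum_le_sum_of_subset_of_nonneg (fun u hu => (Finset.mem_filter.1 hu).2)
      fun u _ _ => by positivity
  have h6 := mul_le_mul_of_nonneg_left h4 (show 0 ≤ 2 * δ * ((K : ℝ) + 1) ^ K by positivity)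
  have h7 := mul_le_mul_of_nonneg_left h5 (show 0 ≤ ((K : ℝ) + 1) ^ K by positivity)
  calc ((nsBig G K D₀).card : ℝ) ≤ _ := h3
    _ ≤ _ := add_le_add h6 h7
    _ = _ := by ring

/-- Claim 1. -/
theorem claim1 {K : ℕ} (hK : 3 ≤ K) {ε : ℝ} (hε : 0 < ε) : ∃ D₀ : ℕ, ∀ {V : Type} [Fintype V]
    [DecidableEq V] (G : SimpleGraph V) [DecidableRel G.Adj], G.IsTree →
    ((nsBig G K D₀).card : ℝ) ≤ ε * (stars G (K + 1)).card := by
  have hcc := cc_pos K
  set a : ℝ := 2 * ((K : ℝ) + 1) ^ K * cc K with ha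
  have hapos : 0 < a := by positivity
  set δ : ℝ := min 1 (ε / (2 * a)) with hδd
  have hδ : 0 < δ := lt_min one_pos (by positivity)
  have hδ1 : δ ≤ 1 := min_le_left _ _
  have hδ2 : δ * a ≤ ε / 2 := by
    have h1 : δ ≤ ε / (2 * a) := min_le_right _ _
    have h2 := mul_le_mul_of_nonneg_right h1 hapos.le
    have h3 : ε / (2 * a) * a = ε / 2 := by field_simp
    linarith
  obtain ⟨n, hn⟩ := exists_nat_gt (max (2 * ((K : ℝ) + 1) / δ) (2 * a / (ε * δ ^ (K + 1))))
  have h1 : 2 * ((K : ℝ) + 1) ≤ δ * n := by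
    have := (le_max_left _ _).trans hn.le
    rw [div_le_iff₀ hδ] at this
    linarith
  have h2 : a / (δ ^ (K + 1) * n) ≤ ε / 2 := by
    have h3 := lt_of_le_of_lt (le_max_right _ _) hn
    rw [div_lt_iff₀ (by positivity)] at h3
    have hnpos : (0 : ℝ) < n := by
      by_contra hcon
      have : (n : ℝ) ≤ 0 := not_lt.1 hcon
      have h5 : (0 : ℝ) < ε * δ ^ (K + 1) := by positivity
      nlinarith
    rw [div_le_iff₀ (by positivity)]
    nlinarith
  refine ⟨n, fun {V} _ _ G _ hG => ?_⟩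
  refine (card_nsBig hG hK hδ hδ1 h1).trans ?_
  apply mul_le_mul_of_nonneg_right _ (Nat.cast_nonneg _)
  have h3 : 2 * δ * ((K : ℝ) + 1) ^ K * cc K = δ * a := by rw [ha]; ring
  have h4 : ((K : ℝ) + 1) ^ K * (2 / (δ ^ (K + 1) * n) * cc K) = a / (δ ^ (K + 1) * n) := by
    rw [ha]; ring
  rw [h3, h4]
  linarith

end Pool.Agent.R893.TP
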