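import Pool.Agent.R893.TP.Claim1

/-!
# Connected sets of small degree are rare if paths are rare
-/

set_option autoImplicit false
set_option linter.unusedSectionVars false

namespace Pool.Agent.R893.TP

open SimpleGraph Finset

variable {V : Type*} [Fintype V] [DecidableEq V] {G : SimpleGraph V} [DecidableRel G.Adj]

open Classical in
/-- The vertex sets which induce a path with `k` vertices. -/
noncomputable def paths (G : SimpleGraph V) (k : ℕ) : Finset (Finset V) :=
  univ.filter fun U => Nonempty (G.induce (U : Set V) ≃g pathGraph k)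

open Classical in
/-- The vertices which are ends of paths of length `K`. -/
noncomputable def ends (G : SimpleGraph V) (K : ℕ) : Finset V :=
  univ.filter fun x => ∃ y, G.dist x y = K

theorem dist_getVert (hG : G.IsTree) {x y : V} (p : G.Walk x y) (hp : p.length = G.dist x y)
    {i : ℕ} (hi : i ≤ p.length) : G.dist x (p.getVert i) = i := by
  have h1 : G.dist x (p.getVert i) ≤ i := by
    have := dist_le (p.take i)
    rw [Walk.take_length] at this
    omega
  have h2 : G.dist (p.getVert i) y ≤ p.length - i := by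
    have := dist_le (p.drop i)
    rwa [Walk.drop_length] at this
  have h3 := hG.connected.dist_triangle (u := x) (v := p.getVert i) (w := y)
  omega

theorem exists_path_set (hG : G.IsTree) {x y : V} {K : ℕ} (h : G.dist x y = K) :
    ∃ U : Finset V, ∃ hx : x ∈ U, ∃ ψ : G.induce (U : Set V) ≃g pathGraph (K + 1),
      ψ ⟨x, hx⟩ = 0 := by
  obtain ⟨p, hp, hpl⟩ := hG.connected.exists_path_of_dist x y
  have hpK : p.length = K := hpl.trans h
  have hd : ∀ i ≤ K, G.dist x (p.getVert i) = i := fun i hi =>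
    dist_getVert hG p hpl (by omega)
  let f : Fin (K + 1) → V := fun i => p.getVert i
  have hf : Function.Injective f := by
    intro i j hij
    apply Fin.ext
    have h1 := hd i (by omega)
    have h2 := hd j (by omega)
    change p.getVert i = p.getVert j at hij
    rw [hij] at h1
    omega
  let U : Finset V := univ.image f
  have hU : ∀ v, v ∈ U ↔ ∃ i, f i = v := by simp [U]
  have hx0 : f 0 = x := by simp [f]
  have hx : x ∈ U := (hU x).2 ⟨0, hx0⟩
  let e : Fin (K + 1) ≃ (U : Set V) := Equiv.ofBijective (fun i => ⟨f i, (hU _).2 ⟨i, rfl⟩⟩)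
    ⟨fun i j hij => hf (congrArg Subtype.val hij), fun ⟨v, hv⟩ => by
      obtain ⟨i, hi⟩ := (hU v).1 hv
      exact ⟨i, Subtype.ext hi⟩⟩
  have he : ∀ i, ((e i : (U : Set V)) : V) = p.getVert i := fun i => rfl
  let φ : pathGraph (K + 1) ≃g G.induce (U : Set V) :=
    { toEquiv := e
      map_rel_iff' := by
        intro i j
        rw [comap_adj, pathGraph_adj]
        change G.Adj (p.getVert i) (p.getVert j) ↔ _
        constructor
        · intro hadj
          have h1 := hG.dist_eq_dist_add_one_of_adj x hadj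
          rw [hd i (by omega), hd j (by omega)] at h1
          omega
        · rintro (hij | hij)
          · rw [← hij]
            exact p.adj_getVert_succ (by omega)
          · rw [← hij]
            exact (p.adj_getVert_succ (by omega)).symm }
  refine ⟨U, hx, φ.symm, ?_⟩
  rw [RelIso.symm_apply_eq]
  apply Subtype.ext
  exact hx0.symm

/-- Automorphisms of a path. -/
theorem path_aut {K : ℕ} (e : pathGraph (K + 1) ≃g pathGraph (K + 1)) :
    e 0 = 0 ∨ e 0 = Fin.last K := by
  by_contra h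
  push Not at h
  obtain ⟨h1, h2⟩ := h
  have h1' : 0 < (e 0).val := by
    rw [Nat.pos_iff_ne_zero]
    intro h
    exact h1 (Fin.ext h)
  have h2' : (e 0).val < K := by
    have := (e 0).2
    have h3 : (e 0).val ≠ K := fun h => h2 (Fin.ext h)
    omega
  let a : Fin (K + 1) := ⟨(e 0).val - 1, by omega⟩
  let b : Fin (K + 1) := ⟨(e 0).val + 1, by omega⟩
  have ha : (pathGraph (K + 1)).Adj (e 0) a := by
    rw [pathGraph_adj]
    right
    change (e 0).val - 1 + 1 = _
    omega
  have hb : (pathGraph (K + 1)).Adj (e 0) b := by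
    rw [pathGraph_adj]
    left
    rfl
  have ha' : (pathGraph (K + 1)).Adj 0 (e.symm a) := by
    rw [← e.map_adj_iff, RelIso.apply_symm_apply]
    exact ha
  have hb' : (pathGraph (K + 1)).Adj 0 (e.symm b) := by
    rw [← e.map_adj_iff, RelIso.apply_symm_apply]
    exact hb
  rw [pathGraph_adj] at ha' hb'
  have h3 : e.symm a = e.symm b := by
    apply Fin.ext
    simp only [Fin.val_zero] at ha' hb'
    omega
  have h4 := congrArg Fin.val (e.symm.injective h3)
  change (e 0).val - 1 = (e 0).val + 1 at h4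
  omega

theorem card_ends (hG : G.IsTree) (K : ℕ) : (ends G K).card ≤ 2 * (paths G (K + 1)).card := by
  classical
  have h1 : ∀ x ∈ ends G K, ∃ U : Finset V, ∃ hx : x ∈ U,
      ∃ ψ : G.induce (U : Set V) ≃g pathGraph (K + 1), ψ ⟨x, hx⟩ = 0 := by
    intro x hx
    obtain ⟨y, hy⟩ := (Finset.mem_filter.1 hx).2
    exact exists_path_set hG hy
  choose! F hF using h1
  refine Finset.card_le_mul_card_image_of_maps_to (f := F) (fun x hx => ?_) 2 fun U hU => ?_
  · obtain ⟨-, ψ, -⟩ := hF x hx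
    exact Finset.mem_filter.2 ⟨Finset.mem_univ _, ⟨ψ⟩⟩
  · have h2 : ∀ x ∈ ends G K, F x = U → ∃ hx : x ∈ U,
        ∃ ψ : G.induce (U : Set V) ≃g pathGraph (K + 1), ψ ⟨x, hx⟩ = 0 := by
      rintro x hx rfl
      exact hF x hx
    rcases Finset.eq_empty_or_nonempty ((ends G K).filter fun x => F x = U) with h0 | ⟨x, hx⟩
    · rw [h0]
      simp
    · obtain ⟨hx1, hx2⟩ := Finset.mem_filter.1 hx
      obtain ⟨hxU, ψ, -⟩ := h2 x hx1 hx2
      have h3 : (ends G K).filter (fun x => F x = U) ⊆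
          {(ψ.symm 0 : V), (ψ.symm (Fin.last K) : V)} := by
        intro z hz
        obtain ⟨hz1, hz2⟩ := Finset.mem_filter.1 hz
        obtain ⟨hzU, χ, hχ⟩ := h2 z hz1 hz2
        rw [Finset.mem_insert, Finset.mem_singleton]
        have h4 : χ.symm 0 = ⟨z, hzU⟩ := by rw [RelIso.symm_apply_eq]; exact hχ.symm
        have h5 := path_aut (χ.symm.trans ψ)
        change ψ (χ.symm 0) = 0 ∨ ψ (χ.symm 0) = Fin.last K at h5
        rw [h4] at h5
        rcases h5 with h5 | h5
        · left
          rw [← h5, RelIso.symm_apply_apply]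
        · right
          rw [← h5, RelIso.symm_apply_apply]
      exact (Finset.card_le_card h3).trans Finset.card_le_two

/-- The sphere around `x`. -/
noncomputable def sph (G : SimpleGraph V) (x : V) (i : ℕ) : Finset V :=
  univ.filter fun y => G.dist x y = i

theorem sph_succ (hG : G.IsTree) (x : V) (i : ℕ) {S : Finset V} (hS : sph G x i ⊆ S) :
    sph G x (i + 1) ⊆ S.biUnion fun z => G.neighborFinset z := by
  intro y hy
  have hy' : G.dist x y = i + 1 := (Finset.mem_filter.1 hy).2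
  obtain ⟨p, hp, hpl⟩ := hG.connected.exists_path_of_dist x y
  have h1 := dist_getVert hG p hpl (i := i) (by omega)
  rw [Finset.mem_biUnion]
  refine ⟨p.getVert i, hS (Finset.mem_filter.2 ⟨Finset.mem_univ _, h1⟩), ?_⟩
  rw [G.mem_neighborFinset]
  have h2 := p.adj_getVert_succ (i := i) (by omega)
  have h3 : p.getVert (i + 1) = y := by
    rw [← hy', ← hpl, Walk.getVert_length]
  rwa [h3] at h2

theorem card_sph (hG : G.IsTree) (x : V) {Δ : ℕ} (hΔ : ∀ v, G.degree v ≤ Δ) (i : ℕ) :
    (sph G x (i + 1)).card ≤ G.degree x * Δ ^ i := by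
  induction i with
  | zero =>
    have h1 : sph G x 0 ⊆ {x} := by
      intro y hy
      have hy' : G.dist x y = 0 := (Finset.mem_filter.1 hy).2
      rw [Finset.mem_singleton]
      exact (hG.connected.dist_eq_zero_iff.1 hy').symm
    refine (Finset.card_le_card (sph_succ hG x 0 h1)).trans ?_
    rw [Finset.singleton_biUnion, G.card_neighborFinset_eq_degree, pow_zero, mul_one]
  | succ i ih =>
    refine (Finset.card_le_card (sph_succ hG x (i + 1) subset_rfl)).trans ?_
    refine Finset.card_biUnion_le.trans ?_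
    refine (Finset.sum_le_card_nsmul _ _ Δ fun v _ => ?_).trans ?_
    · rw [G.card_neighborFinset_eq_degree]
      exact hΔ v
    · rw [smul_eq_mul, pow_succ, ← mul_assoc]
      exact Nat.mul_le_mul_right _ ih

theorem card_ball (hG : G.IsTree) (x : V) {Δ K : ℕ} (hΔ : ∀ v, G.degree v ≤ Δ) (hΔ1 : 1 ≤ Δ)
    (hx : ∀ y, G.dist x y < K + 3) : Fintype.card V ≤ 1 + (K + 2) * (G.degree x * Δ ^ (K + 1)) := by
  have h1 : (univ : Finset V) ⊆ {x} ∪ (Finset.range (K + 2)).biUnion fun i => sph G x (i + 1) := by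
    intro y _
    rw [Finset.mem_union, Finset.mem_singleton, Finset.mem_biUnion]
    by_cases h : y = x
    · exact Or.inl h
    · right
      have h2 : G.dist x y ≠ 0 := fun h0 => h (hG.connected.dist_eq_zero_iff.1 h0).symm
      refine ⟨G.dist x y - 1, ?_, ?_⟩
      · rw [Finset.mem_range]
        have := hx y
        omega
      · refine Finset.mem_filter.2 ⟨Finset.mem_univ _, ?_⟩
        omega
  have h2 := (Finset.card_le_card h1).trans (Finset.card_union_le _ _)
  rw [Finset.card_univ, Finset.card_singleton] at h2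
  refine h2.trans (Nat.add_le_add_left ?_ _)
  refine Finset.card_biUnion_le.trans ?_
  refine (Finset.sum_le_card_nsmul _ _ (G.degree x * Δ ^ (K + 1)) fun i hi => ?_).trans ?_
  · refine (card_sph hG x hΔ i).trans (Nat.mul_le_mul_left _ ?_)
    exact Nat.pow_le_pow_right hΔ1 (by have := Finset.mem_range.1 hi; omega)
  · rw [Finset.card_range, smul_eq_mul]

open Classical in
/-- Connected sets all of whose vertices have degree less than `D₀`. -/
noncomputable def low (G : SimpleGraph V) [DecidableRel G.Adj] (K D₀ : ℕ) :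
    Finset (Finset V) :=
  (conn G (K + 1)).filter fun U => ∀ x ∈ U, G.degree x < D₀

theorem card_low (K D₀ : ℕ) : (low G K D₀).card ≤
    ((low G K D₀).biUnion id).card * ((K + 1) * D₀) ^ K := by
  classical
  have h1 : low G K D₀ ⊆ ((low G K D₀).biUnion id).biUnion fun x => sup G D₀ {x} K := by
    intro U hU
    obtain ⟨hU1, hU2⟩ := Finset.mem_filter.1 hU
    obtain ⟨hc, hconn⟩ := mem_conn.1 hU1
    obtain ⟨x, hx⟩ : U.Nonempty := by
      rw [← Finset.card_pos]
      omega
    rw [Finset.mem_biUnion]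
    refine ⟨x, Finset.mem_biUnion.2 ⟨U, hU, hx⟩, ?_⟩
    rw [mem_sup]
    refine ⟨by simpa using hx, by rw [hc, Finset.card_singleton, add_comm], hconn,
      fun y hy => (hU2 y hy).le⟩
  refine (Finset.card_le_card h1).trans (Finset.card_biUnion_le.trans ?_)
  refine (Finset.sum_le_card_nsmul _ _ (((K + 1) * D₀) ^ K) fun x _ => ?_).trans ?_
  · refine (card_sup D₀ K {x} (Finset.singleton_nonempty x)).trans ?_
    rw [Finset.card_singleton, add_comm]
  · rw [smul_eq_mul]

theorem not_ends (hG : G.IsTree) {x : V} {K : ℕ} (hx : x ∉ ends G K) (y : V) :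
    G.dist x y < K := by
  by_contra h
  push Not at h
  apply hx
  obtain ⟨p, hp, hpl⟩ := hG.connected.exists_path_of_dist x y
  refine Finset.mem_filter.2 ⟨Finset.mem_univ _, p.getVert K, ?_⟩
  exact dist_getVert hG p hpl (by omega)

/-- Claim 2. -/
theorem claim2 {K : ℕ} (D₀ : ℕ) {ε : ℝ} (hε : 0 < ε) : ∃ κ : ℝ, 0 < κ ∧
    ∃ n₀ : ℕ, ∀ {V : Type} [Fintype V] [DecidableEq V] (G : SimpleGraph V) [DecidableRel G.Adj],
    G.IsTree → n₀ < Fintype.card V →
    ((paths G (K + 3 + 1)).card : ℝ) ≤ κ * (conn G (K + 3 + 1)).card →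
    ((low G (K + 3) D₀).card : ℝ) ≤ ε * (conn G (K + 3 + 1)).card := by
  have hcc := cc_pos (K + 3)
  set C : ℝ := (((K + 3 + 1) * D₀) ^ (K + 3) : ℕ) + 1 with hC
  have hCpos : 0 < C := by positivity
  set B : ℝ := ((K : ℝ) + 3) * ((D₀ : ℝ) + 1) * C * cc (K + 3) / ε with hB
  have hBpos : 0 < B := by positivity
  obtain ⟨N, hN⟩ := exists_nat_gt (max B (2 * ((K : ℝ) + 3 + 1)))
  refine ⟨ε / (2 * C), by positivity, 1 + (K + 2) * (D₀ * N ^ (K + 1)),
    fun {V} _ _ G _ hG hn hP => ?_⟩
  by_contra hcon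
  push Not at hcon
  set Z : ℝ := ((conn G (K + 3 + 1)).card : ℝ) with hZ
  set Vl := (low G (K + 3) D₀).biUnion id with hVl
  have h1 : ε * Z < (Vl.card : ℝ) * C := by
    have h2 : ((low G (K + 3) D₀).card : ℝ) ≤
        (Vl.card : ℝ) * (((K + 3 + 1) * D₀) ^ (K + 3) : ℕ) := by
      exact_mod_cast card_low (G := G) (K + 3) D₀
    have h3 : (0 : ℝ) ≤ Vl.card := Nat.cast_nonneg _
    rw [hC]
    nlinarith
  have h2 : ¬ Vl ⊆ ends G (K + 3) := by
    intro hsub
    have h3 : (Vl.card : ℝ) ≤ 2 * ((paths G (K + 3 + 1)).card : ℝ) := by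
      exact_mod_cast (Finset.card_le_card hsub).trans (card_ends hG (K + 3))
    have h4 : (Vl.card : ℝ) ≤ 2 * (ε / (2 * C) * Z) := by linarith
    have h5 := mul_le_mul_of_nonneg_right h4 hCpos.le
    have h6 : 2 * (ε / (2 * C) * Z) * C = ε * Z := by field_simp
    linarith
  obtain ⟨x, hx, hxe⟩ := Finset.not_subset.1 h2
  have hdx : G.degree x ≤ D₀ := by
    obtain ⟨U, hU, hxU⟩ := Finset.mem_biUnion.1 hx
    exact ((Finset.mem_filter.1 hU).2 x hxU).le
  have hball := not_ends hG hxe
  by_cases hmax : G.maxDegree ≤ N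
  · have hN1 : 1 ≤ N := by
      have h3 := lt_of_le_of_lt (le_max_left _ _) hN
      have h4 : (0 : ℝ) < N := hBpos.trans h3
      exact_mod_cast h4
    have h3 := card_ball hG x (Δ := N) (K := K) (fun v => (G.degree_le_maxDegree v).trans hmax)
      hN1 hball
    have h4 : (K + 2) * (G.degree x * N ^ (K + 1)) ≤ (K + 2) * (D₀ * N ^ (K + 1)) :=
      Nat.mul_le_mul_left _ (Nat.mul_le_mul_right _ hdx)
    omega
  · push Not at hmax
    have : Nonempty V := ⟨x⟩
    obtain ⟨m, hm⟩ := G.exists_maximal_degree_vertex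
    set Δ := G.maxDegree with hΔ
    have hΔN : (N : ℝ) < Δ := by exact_mod_cast hmax
    have hΔB : B < Δ := (lt_of_le_of_lt (le_max_left _ _) hN).trans hΔN
    have hΔK : 2 * ((K : ℝ) + 3 + 1) < Δ := (lt_of_le_of_lt (le_max_right _ _) hN).trans hΔN
    have hΔK' : 2 * (K + 3 + 1) ≤ Δ := by
      have : ((2 * (K + 3 + 1) : ℕ) : ℝ) < (Δ : ℝ) := by push_cast; exact hΔK
      exact_mod_cast this.le
    have hΔ1 : 1 ≤ Δ := by omega
    have h3 := card_ball hG x (Δ := Δ) (K := K) (fun v => G.degree_le_maxDegree v) hΔ1 hball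
    have h4 : (Vl.card : ℝ) ≤ 1 + ((K : ℝ) + 2) * ((D₀ : ℝ) * (Δ : ℝ) ^ (K + 1)) := by
      have h5 : Vl.card ≤ 1 + (K + 2) * (D₀ * Δ ^ (K + 1)) := by
        refine (Finset.card_le_univ _).trans (h3.trans ?_)
        exact Nat.add_le_add_left (Nat.mul_le_mul_left _ (Nat.mul_le_mul_right _ hdx)) _
      exact_mod_cast h5
    have h5 : (Δ : ℝ) ^ (K + 3) ≤ cc (K + 3) * Z := by
      refine (pow_le_choose hΔK').trans ?_
      apply mul_le_mul_of_nonneg_left _ hcc.le
      rw [hZ]
      have h6 : (G.degree m).choose (K + 3) ≤ ∑ v, (G.degree v).choose (K + 3) :=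
        Finset.single_le_sum (f := fun v => (G.degree v).choose (K + 3))
          (fun v _ => Nat.zero_le _) (Finset.mem_univ m)
      rw [hm]
      exact_mod_cast h6.trans ((sum_choose_le hG (by omega)).trans
        (Finset.card_le_card (stars_subset _)))
    have hΔ1r : (1 : ℝ) ≤ Δ := by exact_mod_cast hΔ1
    have hpow1 : (1 : ℝ) ≤ (Δ : ℝ) ^ (K + 1) := one_le_pow₀ hΔ1r
    have hKr : (0 : ℝ) ≤ K := Nat.cast_nonneg _
    have hDr : (0 : ℝ) ≤ D₀ := Nat.cast_nonneg _
    have h6 : (Vl.card : ℝ) ≤ ((K : ℝ) + 3) * ((D₀ : ℝ) + 1) * (Δ : ℝ) ^ (K + 1) := by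
      refine h4.trans ?_
      nlinarith [mul_nonneg hKr hDr, mul_nonneg (mul_nonneg hKr hDr) (zero_le_one.trans hpow1),
        mul_nonneg hDr (zero_le_one.trans hpow1), mul_nonneg hKr (zero_le_one.trans hpow1)]
    -- combine
    have h7 : ε * (Δ : ℝ) ^ (K + 3) ≤
        cc (K + 3) * (((K : ℝ) + 3) * ((D₀ : ℝ) + 1) * (Δ : ℝ) ^ (K + 1) * C) := by
      have e1 := mul_le_mul_of_nonneg_left h5 hε.le
      have e2 := mul_le_mul_of_nonneg_right h6 hCpos.le
      have e3 := mul_le_mul_of_nonneg_left (h1.le.trans e2) hcc.le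
      calc ε * (Δ : ℝ) ^ (K + 3) ≤ ε * (cc (K + 3) * Z) := e1
        _ = cc (K + 3) * (ε * Z) := by ring
        _ ≤ _ := e3
    have hpp : (0 : ℝ) < (Δ : ℝ) ^ (K + 1) := by positivity
    have h8 : (Δ : ℝ) ^ 2 ≤ B := by
      rw [hB, le_div_iff₀ hε]
      have e1 : ε * (Δ : ℝ) ^ (K + 3) = ((Δ : ℝ) ^ 2 * ε) * (Δ : ℝ) ^ (K + 1) := by ring
      have e2 : cc (K + 3) * (((K : ℝ) + 3) * ((D₀ : ℝ) + 1) * (Δ : ℝ) ^ (K + 1) * C) =
          (((K : ℝ) + 3) * ((D₀ : ℝ) + 1) * C * cc (K + 3)) * (Δ : ℝ) ^ (K + 1) := by ring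
      rw [e1, e2] at h7
      exact le_of_mul_le_mul_right h7 hpp
    nlinarith

end Pool.Agent.R893.TP
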