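import Mathlib

/-!
# Counting connected vertex sets in trees
-/

set_option autoImplicit false
set_option linter.unusedSectionVars false

namespace Pool.Agent.R893.TP

open SimpleGraph Finset

variable {V : Type*} [Fintype V] [DecidableEq V] {G : SimpleGraph V}

/-- A proper nonempty subset of a connected set has an edge leaving it. -/
theorem exists_edge {U W : Finset V} (hU : (G.induce (U : Set V)).Connected) (hW : W.Nonempty)
    (hWU : W ⊆ U) (hne : W ≠ U) : ∃ w ∈ W, ∃ y ∈ U, y ∉ W ∧ G.Adj w y := by
  obtain ⟨w, hw⟩ := hW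
  obtain ⟨y, hyU, hyW⟩ : ∃ y ∈ U, y ∉ W := by
    by_contra h
    push Not at h
    exact hne (subset_antisymm hWU h)
  obtain ⟨p⟩ := hU.preconnected ⟨w, hWU hw⟩ ⟨y, hyU⟩
  obtain ⟨d, -, h1, h2⟩ := p.exists_boundary_dart {x | (x : V) ∈ W} hw hyW
  exact ⟨d.fst, h1, d.snd, d.snd.2, h2, d.adj⟩

variable [DecidableRel G.Adj]

open Classical in
/-- Connected sets of given size containing `W`, all of whose vertices have degree at most `D`. -/
noncomputable def sup (G : SimpleGraph V) [DecidableRel G.Adj] (D : ℕ) (W : Finset V) (m : ℕ) :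
    Finset (Finset V) :=
  univ.filter fun U => W ⊆ U ∧ U.card = W.card + m ∧ (G.induce (U : Set V)).Connected ∧
    ∀ x ∈ U, G.degree x ≤ D

theorem mem_sup {D m : ℕ} {W U : Finset V} : U ∈ sup G D W m ↔ W ⊆ U ∧ U.card = W.card + m ∧
    (G.induce (U : Set V)).Connected ∧ ∀ x ∈ U, G.degree x ≤ D := by
  simp [sup]

theorem card_sup (D m : ℕ) : ∀ W : Finset V, W.Nonempty →
    (sup G D W m).card ≤ ((W.card + m) * D) ^ m := by
  induction m with
  | zero =>
    intro W _
    rw [pow_zero]
    refine Finset.card_le_one.2 fun U hU U' hU' => ?_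
    rw [mem_sup] at hU hU'
    rw [← Finset.eq_of_subset_of_card_le hU.1 (by omega),
      ← Finset.eq_of_subset_of_card_le hU'.1 (by omega)]
  | succ m ih =>
    intro W hW
    let Y := (W.filter fun w => G.degree w ≤ D).biUnion fun w => G.neighborFinset w
    have hY : Y.card ≤ W.card * D := by
      refine Finset.card_biUnion_le.trans ?_
      refine (Finset.sum_le_card_nsmul _ _ D fun w hw => ?_).trans ?_
      · rw [G.card_neighborFinset_eq_degree]
        exact (Finset.mem_filter.1 hw).2
      · rw [smul_eq_mul]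
        exact Nat.mul_le_mul_right _ (Finset.card_filter_le _ _)
    have hsub : sup G D W (m + 1) ⊆ (Y \ W).biUnion fun y => sup G D (insert y W) m := by
      intro U hU
      rw [mem_sup] at hU
      obtain ⟨h1, h2, h3, h4⟩ := hU
      obtain ⟨w, hw, y, hyU, hyW, hadj⟩ := exists_edge h3 hW h1 (by
        rintro rfl
        omega)
      rw [Finset.mem_biUnion]
      refine ⟨y, ?_, ?_⟩
      · rw [Finset.mem_sdiff]
        refine ⟨?_, hyW⟩
        rw [Finset.mem_biUnion]
        exact ⟨w, Finset.mem_filter.2 ⟨hw, h4 w (h1 hw)⟩, (G.mem_neighborFinset _ _).2 hadj⟩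
      · rw [mem_sup]
        refine ⟨Finset.insert_subset hyU h1, ?_, h3, h4⟩
        rw [Finset.card_insert_of_notMem hyW, h2]
        omega
    refine (Finset.card_le_card hsub).trans (Finset.card_biUnion_le.trans ?_)
    refine (Finset.sum_le_card_nsmul _ _ (((W.card + (m + 1)) * D) ^ m) fun y hy => ?_).trans ?_
    · have h5 := ih (insert y W) (Finset.insert_nonempty _ _)
      rw [Finset.card_insert_of_notMem (Finset.mem_sdiff.1 hy).2] at h5
      rwa [show W.card + 1 + m = W.card + (m + 1) by ring] at h5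
    · rw [smul_eq_mul, pow_succ']
      apply Nat.mul_le_mul_right
      refine (Finset.card_le_card Finset.sdiff_subset).trans (hY.trans ?_)
      exact Nat.mul_le_mul_right _ (by omega)

open Classical in
/-- The connected `k`-sets. -/
noncomputable def conn (G : SimpleGraph V) (k : ℕ) : Finset (Finset V) :=
  univ.filter fun U => U.card = k ∧ (G.induce (U : Set V)).Connected

open Classical in
/-- The `k`-sets which have a vertex adjacent to all others. -/
noncomputable def stars (G : SimpleGraph V) (k : ℕ) : Finset (Finset V) :=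
  univ.filter fun U => U.card = k ∧ ∃ c ∈ U, ∀ v ∈ U, v ≠ c → G.Adj c v

omit [DecidableRel G.Adj] in
theorem mem_conn {k : ℕ} {U : Finset V} :
    U ∈ conn G k ↔ U.card = k ∧ (G.induce (U : Set V)).Connected := by
  simp [conn]

omit [DecidableRel G.Adj] in
theorem mem_stars {k : ℕ} {U : Finset V} :
    U ∈ stars G k ↔ U.card = k ∧ ∃ c ∈ U, ∀ v ∈ U, v ≠ c → G.Adj c v := by
  simp [stars]

omit [DecidableRel G.Adj] in
theorem stars_subset (k : ℕ) : stars G k ⊆ conn G k := by
  intro U hU
  rw [mem_stars] at hU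
  obtain ⟨h1, c, hc, h2⟩ := hU
  rw [mem_conn]
  refine ⟨h1, ?_⟩
  rw [connected_iff_exists_forall_reachable]
  refine ⟨⟨c, hc⟩, fun v => ?_⟩
  by_cases h : v = ⟨c, hc⟩
  · rw [h]
  · refine Adj.reachable ?_
    exact h2 v.1 v.2 fun h' => h (Subtype.ext h')

omit [DecidableRel G.Adj] in
theorem no_triangle (hG : G.IsTree) {a b c : V} (h1 : G.Adj a b) (h2 : G.Adj b c)
    (h3 : G.Adj a c) : False := by
  have h := hG.isAcyclic.cliqueFree (n := 3) le_rfl
  exact h {a, b, c} (is3Clique_iff.2 ⟨a, b, c, h1, h3, h2, rfl⟩)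

theorem sum_choose_le (hG : G.IsTree) {k : ℕ} (hk : 3 ≤ k) :
    ∑ v, (G.degree v).choose k ≤ (stars G (k + 1)).card := by
  have h1 : ∑ v, (G.degree v).choose k =
      ((univ : Finset V).sigma fun v => (G.neighborFinset v).powersetCard k).card := by
    rw [Finset.card_sigma]
    exact Finset.sum_congr rfl fun v _ => by
      rw [Finset.card_powersetCard, G.card_neighborFinset_eq_degree]
  rw [h1]
  refine Finset.card_le_card_of_injOn (fun x => insert x.1 x.2) ?_ ?_
  · rintro ⟨v, A⟩ hx
    rw [Finset.mem_coe, Finset.mem_sigma, Finset.mem_powersetCard] at hx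
    obtain ⟨-, hA, hc⟩ := hx
    rw [Finset.mem_coe, mem_stars]
    have hv : v ∉ A := fun h => G.irrefl ((G.mem_neighborFinset _ _).1 (hA h))
    refine ⟨by rw [Finset.card_insert_of_notMem hv]; exact congrArg (· + 1) hc, v,
      Finset.mem_insert_self _ _, fun w hw hne => ?_⟩
    exact (G.mem_neighborFinset _ _).1 (hA ((Finset.mem_insert.1 hw).resolve_left hne))
  · rintro ⟨v, A⟩ hx ⟨v', A'⟩ hx' he
    rw [Finset.mem_coe, Finset.mem_sigma, Finset.mem_powersetCard] at hx hx'
    obtain ⟨-, hA, hc⟩ := hx
    obtain ⟨-, hA', hc'⟩ := hx'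
    simp only at he hA hA' hc hc'
    have hv : v ∉ A := fun h => G.irrefl ((G.mem_neighborFinset _ _).1 (hA h))
    have hv' : v' ∉ A' := fun h => G.irrefl ((G.mem_neighborFinset _ _).1 (hA' h))
    by_cases hvv : v = v'
    · subst hvv
      have : A = A' := by
        rw [← Finset.erase_insert hv, ← Finset.erase_insert hv', he]
      rw [this]
    · exfalso
      have e1 : v' ∈ A := by
        have : v' ∈ insert v A := by rw [he]; exact Finset.mem_insert_self _ _
        exact (Finset.mem_insert.1 this).resolve_left (Ne.symm hvv)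
      obtain ⟨w, hw, hne⟩ : ∃ w ∈ A, w ≠ v' := by
        apply Finset.exists_mem_ne
        omega
      have e2 : w ∈ A' := by
        have : w ∈ insert v' A' := by rw [← he]; exact Finset.mem_insert_of_mem hw
        exact (Finset.mem_insert.1 this).resolve_left hne
      exact no_triangle hG ((G.mem_neighborFinset _ _).1 (hA e1))
        ((G.mem_neighborFinset _ _).1 (hA' e2)) ((G.mem_neighborFinset _ _).1 (hA hw))

/-- `v` is a child of `u` for the root `r`. -/
def child (G : SimpleGraph V) (r u v : V) : Prop := G.Adj u v ∧ G.dist r v = G.dist r u + 1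

omit [DecidableRel G.Adj] [Fintype V] [DecidableEq V] in
theorem parent_unique (hG : G.IsTree) {r u u' v : V} (h : child G r u v) (h' : child G r u' v) :
    u = u' := by
  obtain ⟨p, hp, hpl⟩ := hG.connected.exists_path_of_dist r u
  obtain ⟨q, hq, hql⟩ := hG.connected.exists_path_of_dist r u'
  have h1 : (p.concat h.1).IsPath := by
    apply Walk.isPath_of_length_eq_dist
    rw [Walk.length_concat, hpl, h.2]
  have h2 : (q.concat h'.1).IsPath := by
    apply Walk.isPath_of_length_eq_dist
    rw [Walk.length_concat, hql, h'.2]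
  have h3 := (hG.existsUnique_path r v).unique h1 h2
  have h4 := congrArg Walk.penultimate h3
  rwa [Walk.penultimate_concat, Walk.penultimate_concat] at h4

omit [DecidableRel G.Adj] [Fintype V] [DecidableEq V] in
theorem child_or (hG : G.IsTree) (r : V) {u v : V} (h : G.Adj u v) :
    child G r u v ∨ child G r v u := by
  rcases hG.dist_eq_dist_add_one_of_adj r h with h1 | h1
  · exact Or.inr ⟨h.symm, h1⟩
  · exact Or.inl ⟨h, h1⟩

end Pool.Agent.R893.TP
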