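import Mathlib

/-!
# Profiles of trees: definitions
-/

set_option autoImplicit false

namespace Pool.Agent.R893.TP

open SimpleGraph Filter

/-- The number `c(S, T)` of copies of the tree `S` in the tree `T`: the number of vertex sets `U` of
`T` such that `T[U]` is isomorphic to `S`. -/
noncomputable def copies {k n : ℕ} (S : SimpleGraph (Fin k)) (T : SimpleGraph (Fin n)) : ℕ :=
  Nat.card {U : Set (Fin n) // Nonempty (T.induce U ≃g S)}

/-- The number `Z_k(T)` of vertex sets `U` with `k` elements such that `T[U]` is connected. As `T` is a
tree, this is the sum of `c(S, T)` over the isomorphism types `S` of trees with `k` vertices. -/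
noncomputable def total (k : ℕ) {n : ℕ} (T : SimpleGraph (Fin n)) : ℕ :=
  Nat.card {U : Set (Fin n) // U.ncard = k ∧ (T.induce U).Connected}

/-- The trees with vertex set `{0, ..., k - 1}`; every isomorphism type of trees with `k` vertices is
represented. -/
abbrev TreeOn (k : ℕ) : Type := {S : SimpleGraph (Fin k) // S.IsTree}

/-- The `k`-profile of `T`. Its coordinates are indexed by the trees `S` with vertex set
`{0, ..., k - 1}`; isomorphic trees have the same coordinate. -/
noncomputable def profile (k : ℕ) {n : ℕ} (T : SimpleGraph (Fin n)) : TreeOn k → ℝ :=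
  fun S => (copies S.1 T : ℝ) / (total k T : ℝ)

/-- The limit set of the `k`-profiles of trees: the limits of `k`-profiles of trees whose numbers of
vertices tend to infinity. -/
def limitSet (k : ℕ) : Set (TreeOn k → ℝ) :=
  {p | ∃ (n : ℕ → ℕ) (T : ∀ i, SimpleGraph (Fin (n i))), (∀ i, (T i).IsTree) ∧
    Tendsto n atTop atTop ∧ Tendsto (fun i => profile k (T i)) atTop (nhds p)}

/-- The path with `K + 1` vertices is a tree. -/
theorem isTree_path (K : ℕ) : (pathGraph (K + 1)).IsTree := by
  refine ⟨pathGraph_connected K, ?_⟩
  rw [isAcyclic_iff_forall_adj_isBridge]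
  have key : ∀ i j : Fin (K + 1), i.val + 1 = j.val →
      (pathGraph (K + 1)).IsBridge s(i, j) := by
    intro i j hij
    rw [isBridge_iff]
    rintro ⟨p⟩
    have h1 : ∀ {a b : Fin (K + 1)} (q : ((pathGraph (K + 1)) \ fromEdgeSet {s(i, j)}).Walk a b),
        a.val ≤ i.val → b.val ≤ i.val := by
      intro a b q
      induction q with
      | nil => exact id
      | @cons u v w h q ih =>
        intro hu
        apply ih
        rw [sdiff_adj, pathGraph_adj, fromEdgeSet_adj] at h
        obtain ⟨h2, h3⟩ := h
        by_contra hcon
        push Not at hcon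
        apply h3
        have hv : v.val = i.val + 1 := by omega
        have hu' : u.val = i.val := by omega
        have e1 : u = i := Fin.ext hu'
        have e2 : v = j := Fin.ext (by omega)
        refine ⟨by rw [e1, e2]; exact Set.mem_singleton _, ?_⟩
        intro huv
        have := congrArg Fin.val huv
        omega
    have := h1 p le_rfl
    omega
  intro i j hadj
  rw [pathGraph_adj] at hadj
  rcases hadj with h | h
  · exact key i j h
  · rw [Sym2.eq_swap]
    exact key j i h

/-- The path with `K + 1` vertices. -/
def pathTree (K : ℕ) : TreeOn (K + 1) := ⟨pathGraph (K + 1), isTree_path K⟩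

/-- The star `K_{1,K}` with `K + 1` vertices. -/
def starTree (K : ℕ) : TreeOn (K + 1) := ⟨starGraph 0, isTree_starGraph 0⟩

end Pool.Agent.R893.TP
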