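import Pool.Agent.R893.TP.Claim2
import Pool.Agent.R893.TP.Defs

/-!
# Vanishing path density forces star density one
-/

set_option autoImplicit false
set_option linter.unusedSectionVars false

namespace Pool.Agent.R893.TP

open SimpleGraph Finset Filter

theorem card_sets {V : Type*} [Fintype V] [DecidableEq V] (P : Set V → Prop)
    (S : Finset (Finset V)) (hS : ∀ U, U ∈ S ↔ P (U : Set V)) : Nat.card {U : Set V // P U} = S.card := by
  classical
  let e : {U : Set V // P U} ≃ {U : Finset V // U ∈ S} :=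
    { toFun := fun U => ⟨U.1.toFinset, (hS _).2 (by simpa using U.2)⟩
      invFun := fun U => ⟨(U.1 : Set V), (hS _).1 U.2⟩
      left_inv := fun U => Subtype.ext (by simp)
      right_inv := fun U => Subtype.ext (by simp) }
  rw [Nat.card_congr e, Nat.card_eq_fintype_card, Fintype.card_coe]

variable {V : Type*} [Fintype V] [DecidableEq V] {G : SimpleGraph V}

theorem mem_paths {k : ℕ} {U : Finset V} :
    U ∈ paths G k ↔ Nonempty (G.induce (U : Set V) ≃g pathGraph k) := by
  simp [paths]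

theorem paths_subset (K : ℕ) : paths G (K + 1) ⊆ conn G (K + 1) := by
  intro U hU
  obtain ⟨ψ⟩ := mem_paths.1 hU
  rw [mem_conn]
  constructor
  · have h1 := Fintype.card_congr ψ.toEquiv
    rw [Fintype.card_fin] at h1
    rw [← h1]
    simp
  · exact ψ.connected_iff.2 (pathGraph_connected K)

theorem star_iso [DecidableRel G.Adj] (hG : G.IsTree) {K : ℕ} {U : Finset V}
    (hU : U ∈ stars G (K + 1)) :
    Nonempty (G.induce (U : Set V) ≃g starGraph (0 : Fin (K + 1))) := by
  obtain ⟨hc, c, hcU, hadj⟩ := mem_stars.1 hU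
  let e : (U : Set V) ≃ Fin (K + 1) := Fintype.equivFinOfCardEq (by simpa using hc)
  let f : (U : Set V) ≃ Fin (K + 1) := e.trans (Equiv.swap (e ⟨c, hcU⟩) 0)
  have hf : ∀ a, f a = 0 ↔ a = ⟨c, hcU⟩ := by
    intro a
    have h0 : f ⟨c, hcU⟩ = 0 := by simp [f]
    rw [← h0]
    exact f.apply_eq_iff_eq
  refine ⟨⟨f, ?_⟩⟩
  intro a b
  rw [starGraph_adj, hf, hf, f.injective.ne_iff, comap_adj]
  change _ ↔ G.Adj (a : V) (b : V)
  constructor
  · rintro ⟨hne, h | h⟩
    · rw [h]
      exact hadj b b.2 fun h' => hne (by rw [h]; exact Subtype.ext h'.symm)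
    · rw [h]
      exact (hadj a a.2 fun h' => hne (by rw [h]; exact Subtype.ext h')).symm
  · intro h
    refine ⟨fun h' => h.ne (congrArg Subtype.val h'), ?_⟩
    by_contra hcon
    push Not at hcon
    have ha : (a : V) ≠ c := fun h' => hcon.1 (Subtype.ext h')
    have hb : (b : V) ≠ c := fun h' => hcon.2 (Subtype.ext h')
    exact no_triangle hG (hadj a a.2 ha) h (hadj b b.2 hb)

theorem conn_pos [DecidableRel G.Adj] (hG : G.IsTree) {K : ℕ}
    (hV : 1 + (K + 2) * ((K + 3) * (K + 3) ^ (K + 1)) < Fintype.card V) :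
    0 < (conn G (K + 3 + 1)).card := by
  by_contra hcon
  have h0 : conn G (K + 3 + 1) = ∅ := by
    rw [← Finset.card_eq_zero]
    omega
  have hends : ∀ x, x ∉ ends G (K + 3) := by
    intro x hx
    have h1 := card_ends hG (K + 3)
    have h2 : paths G (K + 3 + 1) = ∅ := Finset.subset_empty.1 (h0 ▸ paths_subset (K + 3))
    rw [h2, Finset.card_empty, mul_zero, Nat.le_zero, Finset.card_eq_zero] at h1
    rw [h1] at hx
    simp at hx
  have hdeg : ∀ v, G.degree v ≤ K + 3 := by
    intro v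
    have h1 : stars G (K + 3 + 1) = ∅ := Finset.subset_empty.1 (h0 ▸ stars_subset _)
    have h2 := sum_choose_le hG (k := K + 3) (by omega)
    rw [h1, Finset.card_empty, Nat.le_zero, Finset.sum_eq_zero_iff] at h2
    have h3 := h2 v (Finset.mem_univ _)
    rw [Nat.choose_eq_zero_iff] at h3
    exact h3.le
  obtain ⟨x⟩ := hG.connected.nonempty
  have h1 := card_ball hG x (Δ := K + 3) (K := K) hdeg (by omega) (not_ends hG (hends x))
  have h2 : (K + 2) * (G.degree x * (K + 3) ^ (K + 1)) ≤
      (K + 2) * ((K + 3) * (K + 3) ^ (K + 1)) :=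
    Nat.mul_le_mul_left _ (Nat.mul_le_mul_right _ (hdeg x))
  omega

/-- The finite form: if paths are rare then almost all connected sets are stars. -/
theorem almost_all (K : ℕ) {ε : ℝ} (hε : 0 < ε) : ∃ κ : ℝ, 0 < κ ∧
    ∃ n₀ : ℕ, ∀ {V : Type} [Fintype V] [DecidableEq V] (G : SimpleGraph V),
    G.IsTree → n₀ < Fintype.card V →
    ((paths G (K + 3 + 1)).card : ℝ) ≤ κ * (conn G (K + 3 + 1)).card →
    (1 - ε) * ((conn G (K + 3 + 1)).card : ℝ) ≤ ((stars G (K + 3 + 1)).card : ℝ) := by
  obtain ⟨D₀, hD₀⟩ := claim1 (K := K + 3) (by omega) (half_pos hε)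
  obtain ⟨κ, hκ, n₀, hn₀⟩ := claim2 (K := K) D₀ (half_pos hε)
  refine ⟨κ, hκ, n₀, fun {V} _ _ G hG hn hP => ?_⟩
  classical
  have h1 := hD₀ G hG
  have h2 := hn₀ G hG hn hP
  have h3 : conn G (K + 3 + 1) ⊆ stars G (K + 3 + 1) ∪ (nsBig G (K + 3) D₀ ∪ low G (K + 3) D₀) := by
    intro U hU
    rw [Finset.mem_union, Finset.mem_union]
    by_cases hs : U ∈ stars G (K + 3 + 1)
    · exact Or.inl hs
    · right
      by_cases hb : ∃ x ∈ U, D₀ ≤ G.degree x
      · exact Or.inl (Finset.mem_filter.2 ⟨Finset.mem_sdiff.2 ⟨hU, hs⟩, hb⟩)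
      · push Not at hb
        exact Or.inr (Finset.mem_filter.2 ⟨hU, hb⟩)
  have h4 : ((conn G (K + 3 + 1)).card : ℝ) ≤ ((stars G (K + 3 + 1)).card : ℝ) +
      (((nsBig G (K + 3) D₀).card : ℝ) + ((low G (K + 3) D₀).card : ℝ)) := by
    have := (Finset.card_le_card h3).trans ((Finset.card_union_le _ _).trans
      (Nat.add_le_add_left (Finset.card_union_le _ _) _))
    exact_mod_cast this
  have h5 : ((stars G (K + 3 + 1)).card : ℝ) ≤ ((conn G (K + 3 + 1)).card : ℝ) := by
    exact_mod_cast Finset.card_le_card (stars_subset _)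
  nlinarith

theorem main (K : ℕ) (p : TreeOn (K + 3 + 1) → ℝ) (hp : p ∈ limitSet (K + 3 + 1))
    (h0 : p (pathTree (K + 3)) = 0) : p (starTree (K + 3)) = 1 := by
  classical
  obtain ⟨n, T, hT, hn, hlim⟩ := hp
  rw [tendsto_pi_nhds] at hlim
  have hpath := hlim (pathTree (K + 3))
  have hstar := hlim (starTree (K + 3))
  rw [h0] at hpath
  -- the cardinalities
  have htot : ∀ i, total (K + 3 + 1) (T i) = (conn (T i) (K + 3 + 1)).card := by
    intro i
    refine card_sets _ _ fun U => ?_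
    rw [mem_conn, Set.ncard_coe_finset]
  have hcp : ∀ i, copies (pathTree (K + 3)).1 (T i) = (paths (T i) (K + 3 + 1)).card := by
    intro i
    refine card_sets _ _ fun U => ?_
    rw [mem_paths]
    rfl
  have hcs : ∀ i, (stars (T i) (K + 3 + 1)).card ≤ copies (starTree (K + 3)).1 (T i) := by
    intro i
    let S : Finset (Finset (Fin (n i))) := univ.filter fun U =>
      Nonempty ((T i).induce (U : Set (Fin (n i))) ≃g (starTree (K + 3)).1)
    have h1 : copies (starTree (K + 3)).1 (T i) = S.card := card_sets _ _ fun U => by simp [S]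
    rw [h1]
    refine Finset.card_le_card fun U hU => ?_
    exact Finset.mem_filter.2 ⟨Finset.mem_univ _, star_iso (hT i) hU⟩
  have hcs' : ∀ i, copies (starTree (K + 3)).1 (T i) ≤ (conn (T i) (K + 3 + 1)).card := by
    intro i
    let S : Finset (Finset (Fin (n i))) := univ.filter fun U =>
      Nonempty ((T i).induce (U : Set (Fin (n i))) ≃g (starTree (K + 3)).1)
    have h1 : copies (starTree (K + 3)).1 (T i) = S.card := card_sets _ _ fun U => by simp [S]
    rw [h1]
    refine Finset.card_le_card fun U hU => ?_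
    obtain ⟨ψ⟩ := (Finset.mem_filter.1 hU).2
    rw [mem_conn]
    constructor
    · have h1 := Fintype.card_congr ψ.toEquiv
      rw [Fintype.card_fin] at h1
      rw [← h1]
      simp
    · exact ψ.connected_iff.2 (connected_starGraph 0)
  have hone : Tendsto (fun i => profile (K + 3 + 1) (T i) (starTree (K + 3))) atTop (nhds 1) := by
    rw [Metric.tendsto_atTop]
    intro ε hε
    obtain ⟨κ, hκ, n₀, hn₀⟩ := almost_all K (half_pos hε)
    have e1 : ∀ᶠ i in atTop, n₀ < n i := hn.eventually_gt_atTop n₀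
    have e2 : ∀ᶠ i in atTop, 1 + (K + 2) * ((K + 3) * (K + 3) ^ (K + 1)) < n i :=
      hn.eventually_gt_atTop _
    have e3 : ∀ᶠ i in atTop, profile (K + 3 + 1) (T i) (pathTree (K + 3)) < κ :=
      hpath.eventually_lt_const hκ
    obtain ⟨N, hN⟩ := eventually_atTop.1 (e1.and (e2.and e3))
    refine ⟨N, fun i hi => ?_⟩
    obtain ⟨h1, h2, h3⟩ := hN i hi
    have hZ : 0 < (conn (T i) (K + 3 + 1)).card := conn_pos (hT i) (by rwa [Fintype.card_fin])
    have hZ' : (0 : ℝ) < (conn (T i) (K + 3 + 1)).card := by exact_mod_cast hZ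
    rw [profile, htot, hcp, div_lt_iff₀ hZ'] at h3
    have h4 := hn₀ (T i) (hT i) (by rwa [Fintype.card_fin]) h3.le
    have h5 : ((stars (T i) (K + 3 + 1)).card : ℝ) ≤ (copies (starTree (K + 3)).1 (T i) : ℝ) := by
      exact_mod_cast hcs i
    have h6 : (copies (starTree (K + 3)).1 (T i) : ℝ) ≤ ((conn (T i) (K + 3 + 1)).card : ℝ) := by
      exact_mod_cast hcs' i
    rw [Real.dist_eq, profile, htot, abs_lt]
    constructor
    · have h7 : (1 - ε / 2) ≤ (copies (starTree (K + 3)).1 (T i) : ℝ) /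
          ((conn (T i) (K + 3 + 1)).card : ℝ) := by
        rw [le_div_iff₀ hZ']
        linarith
      linarith
    · have h7 : (copies (starTree (K + 3)).1 (T i) : ℝ) /
          ((conn (T i) (K + 3 + 1)).card : ℝ) ≤ 1 := by
        rw [div_le_one hZ']
        exact h6
      linarith
  exact tendsto_nhds_unique hstar hone

end Pool.Agent.R893.TP
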